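import Pool.Agent.V11118.ASC2

/-!
Almost every graph has 3-ASC index three.
-/

namespace Pool.Agent.Results.MP_5f8894_co.ThetaThreeAlmostSurely

open Pool.Agent.V11118.ASC Filter Topology

theorem result : Tendsto (proportion (fun _ G => theta 3 G = 3)) atTop (𝓝 1) :=
  Pool.Agent.V11118.ASC.main

end Pool.Agent.Results.MP_5f8894_co.ThetaThreeAlmostSurely
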